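import Pool.Agent.R392.CDX.XF6a

/-!
# Piece XF6 of project CDX: the final inequality for `Q = 6`
-/

namespace R745CDX

open Finset H825CD

namespace XF6

theorem core (m : ℝ) (k l K L : ℕ) (aj bj zj wj ai bi s zP t wP
    Z10 U01 U11 P01 P11 W10 V01 V11 R01 R11 p r : ℝ) (hL3 : L ≤ 3)
    (hF : FinX 6 m k l K L aj bj zj wj ai bi s zP t wP Z10 U01 U11 P01 P11 W10 V01 V11 R01 R11 p r)
    (hV1 : p * (r + 2 * 6 * (W10 + (V01 + R01)) + 6 ^ 2 * (V11 + R11)) ≤ 1)
    (hV2 : r * (p + 2 * 6 * (Z10 + (U01 + P01)) + 6 ^ 2 * (U11 + P11)) ≤ 1) : False := by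
  obtain ⟨hm12, hm, hk, hl, hkl, hKL, haj0, hbj0, hai0, hbi0, haj2, hbj2, hai2, hbi2, haj, hbj,
    hJ1, hJ2, hJ3, hs, hzP, ht, hwP, hai, hbi, hI1, hI2, hZ10, hU01, hU11, hP01, hP11, hW10, hV01,
    hV11, hR01, hR11, c1, c2, c3, c4, r1, r2, hp, hr, hp2, hr2, q1, q2, q3, q4, q5, q6⟩ := hF
  have hqb : ((qb 6 : ℕ) : ℝ) = 12 := by norm_num [qb]
  rw [hqb] at hm12 q5
  have hm2 : m ≤ 1 / 12 := by linarith only [hm12]
  have hkR : (1 : ℝ) ≤ k := by exact_mod_cast hk
  have hlR : (1 : ℝ) ≤ l := by exact_mod_cast hl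
  have hzj : 0 < zj := by
    rw [haj] at haj0
    exact (mul_pos_iff_of_pos_left (by linarith only [hkR])).1 haj0
  have hwj : 0 < wj := by
    rw [hbj] at hbj0
    exact (mul_pos_iff_of_pos_left (by linarith only [hlR])).1 hbj0
  have hR : Rg m zj wj k l := by
    refine rg m zj wj k l hm hm2 hk hl hkl hzj hwj (by rw [← haj]; exact haj2)
      (by rw [← hbj]; exact hbj2) ?_ ?_ ?_
    · rw [← hbj]; exact hJ1
    · rw [← haj]; exact hJ2
    · rw [← haj, ← hbj]
      push_cast at hJ3
      linarith only [hJ3]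
  have hK0 : (0 : ℝ) ≤ K := Nat.cast_nonneg K
  have hL0 : (0 : ℝ) ≤ L := Nat.cast_nonneg L
  have hL3R : (L : ℝ) ≤ 3 := by exact_mod_cast hL3
  -- the losses
  have hkU : 0 ≤ (k : ℝ) * U11 := by positivity
  have hkP : 0 ≤ (k : ℝ) * P11 := by positivity
  have hlV : 0 ≤ (l : ℝ) * V11 := by positivity
  have hlR' : 0 ≤ (l : ℝ) * R11 := by positivity
  have hβ0 : 0 ≤ V01 + L * R01 := by positivity
  have hβ : V01 + L * R01 ≤ bi := by
    rw [hbi]
    have : L * R01 ≤ L * wP := mul_le_mul_of_nonneg_left (by linarith only [c4, hlR']) hL0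
    linarith only [this, c3, hlV]
  have hα0 : 0 ≤ U01 + K * P01 := by positivity
  have hα : U01 + K * P01 ≤ ai := by
    rw [hai]
    have : K * P01 ≤ K * zP := mul_le_mul_of_nonneg_left (by linarith only [c2, hkP]) hK0
    linarith only [this, c1, hkU]
  have hV : p * r + 6 * p * (W10 + (V01 + R01) + 3 * (V11 + R11)) +
      6 * r * (Z10 + (U01 + P01) + 3 * (U11 + P11)) ≤ 1 := by linarith only [hV1, hV2]
  have hP : 0 ≤ 1 - k * zj - (U01 + K * P01) := by
    rw [← haj]; linarith only [haj2, hα, hai2]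
  have hr' : 0 ≤ 1 - l * wj - (V01 + L * R01) := by
    rw [← hbj]; linarith only [hbj2, hβ, hbi2]
  have hPp : 1 - k * zj - (U01 + K * P01) ≤ p := by rw [← haj]; linarith only [hp2]
  have hrr : 1 - l * wj - (V01 + L * R01) ≤ r := by rw [← hbj]; linarith only [hr2]
  have hHt : 0 ≤ Z10 + (U01 + P01) + 3 * (U11 + P11) := by positivity
  have hw3 : wj ≤ W10 + 3 * (V11 + R11) := by
    have : L * R11 ≤ 3 * R11 := mul_le_mul_of_nonneg_right hL3R hR11
    linarith only [this, r2, hV11]
  obtain ⟨hA0, hB0⟩ := posAB hm hm2 hR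
  -- case `K ≤ 3`
  by_cases hK3 : K ≤ 3
  · have hK3R : (K : ℝ) ≤ 3 := by exact_mod_cast hK3
    have hg : wj + (V01 + L * R01) / 3 ≤ W10 + (V01 + R01) + 3 * (V11 + R11) := by
      have : L * R01 ≤ 3 * R01 := mul_le_mul_of_nonneg_right hL3R hR01
      linarith only [this, hw3, hV01]
    have hH : zj + (U01 + K * P01) / 3 ≤ Z10 + (U01 + P01) + 3 * (U11 + P11) := by
      have h1 : K * P01 ≤ 3 * P01 := mul_le_mul_of_nonneg_right hK3R hP01
      have h2 : K * P11 ≤ 3 * P11 := mul_le_mul_of_nonneg_right hK3R hP11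
      linarith only [h1, h2, r1, hU11, hU01]
    have hB := stepB hV hg hP hPp hr' hrr hHt (by positivity) hH
    set α := U01 + K * P01 with hαd
    set β := V01 + L * R01 with hβd
    clear_value α β
    -- the product is small
    have hprod : ai * bi ≤ 11 / 10 * m → False := by
      intro h
      have h1 : α * β ≤ ai * bi := mul_le_mul hα hβ hβ0 hai0.le
      have h2 := pos0 hm hm2 hR
      unfold E0 at h2
      have h3 : 0 ≤ α * (1 - l * wj - 6 * wj) := mul_nonneg hα0 hA0
      have h4 : 0 ≤ β * (1 - k * zj - 6 * zj) := mul_nonneg hβ0 hB0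
      linarith only [h, h1, h2, h3, h4, hB]
    by_cases hL2 : L ≤ 2
    · -- `ai ≤ 3 (s + zP)`, `bi ≤ 2 (t + wP)`
      have hL2R : (L : ℝ) ≤ 2 := by exact_mod_cast hL2
      apply hprod
      refine prodAB hm hm2 hai0.le hbi0.le hai2 hbi2 ?_ ?_
      · have h1 : ai ≤ 3 * (s + zP) := by
          rw [hai]
          have : K * zP ≤ 3 * zP := mul_le_mul_of_nonneg_right hK3R hzP
          linarith only [this, hs]
        have h2 : ai * (1 - bi) ≤ 3 * (s + zP) * (1 - bi) :=
          mul_le_mul_of_nonneg_right h1 (by linarith only [hbi2])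
        have h3 : 0 ≤ (s + zP) * wP := by positivity
        linarith only [h2, h3, hI1]
      · have h1 : bi ≤ 2 * (t + wP) := by
          rw [hbi]
          have : L * wP ≤ 2 * wP := mul_le_mul_of_nonneg_right hL2R hwP
          linarith only [this, ht]
        have h2 : bi * (1 - ai) ≤ 2 * (t + wP) * (1 - ai) :=
          mul_le_mul_of_nonneg_right h1 (by linarith only [hai2])
        have h3 : 0 ≤ (t + wP) * zP := by positivity
        linarith only [h2, h3, hI2]
    by_cases hK2 : K ≤ 2
    · have hK2R : (K : ℝ) ≤ 2 := by exact_mod_cast hK2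
      apply hprod
      rw [mul_comm]
      refine prodAB hm hm2 hbi0.le hai0.le hbi2 hai2 ?_ ?_
      · have h1 : bi ≤ 3 * (t + wP) := by
          rw [hbi]
          have : L * wP ≤ 3 * wP := mul_le_mul_of_nonneg_right hL3R hwP
          linarith only [this, ht]
        have h2 : bi * (1 - ai) ≤ 3 * (t + wP) * (1 - ai) :=
          mul_le_mul_of_nonneg_right h1 (by linarith only [hai2])
        have h3 : 0 ≤ (t + wP) * zP := by positivity
        linarith only [h2, h3, hI2]
      · have h1 : ai ≤ 2 * (s + zP) := by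
          rw [hai]
          have : K * zP ≤ 2 * zP := mul_le_mul_of_nonneg_right hK2R hzP
          linarith only [this, hs]
        have h2 : ai * (1 - bi) ≤ 2 * (s + zP) * (1 - bi) :=
          mul_le_mul_of_nonneg_right h1 (by linarith only [hbi2])
        have h3 : 0 ≤ (s + zP) * wP := by positivity
        linarith only [h2, h3, hI1]
    -- `K = L = 3`
    have hK : K = 3 := by omega
    have hL : L = 3 := by omega
    subst hK hL
    have hst : s = 0 ∧ t = 0 := by
      rcases hKL with h | h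
      · omega
      · exact h.2
    obtain ⟨rfl, rfl⟩ := hst
    norm_num at hai hbi hI1 hI2
    have hz6 : zP ≤ 1 / 6 := by linarith only [hai, hai2]
    have hw6 : wP ≤ 1 / 6 := by linarith only [hbi, hbi2]
    have h1 : zP * (1 - 2 * wP) ≤ m := by rw [hbi] at hI1; linarith only [hI1]
    have h2 : wP * (1 - 2 * zP) ≤ m := by rw [hai] at hI2; linarith only [hI2]
    have a1 := up33 hm hm2 hzP hwP hz6 h1 h2
    have a2 := up33 hm hm2 hwP hzP hw6 h2 h1
    have hpos := posA hm hm2 hR hα0 (by linarith only [hα, hai, a1] : α ≤ 381 / 100 * m) hβ0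
      (by linarith only [hβ, hbi, a2] : β ≤ 381 / 100 * m)
    unfold EA at hpos
    linarith only [hpos, hB]
  -- case `K ≥ 4`
  push Not at hK3
  have hK5 : K ≤ 5 := by
    by_contra h
    have hK6 : K = 6 ∧ L = 0 ∧ t = 0 := by
      rcases hKL with h' | h'
      · omega
      · exact ⟨by omega, by omega, h'.2.2⟩
    obtain ⟨-, rfl, rfl⟩ := hK6
    norm_num at hbi
    linarith only [hbi, hbi0]
  have hKR : (4 : ℝ) ≤ K := by exact_mod_cast hK3
  have hKR5 : (K : ℝ) ≤ 5 := by exact_mod_cast hK5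
  have hH : zj - (K - 3) * P11 + (U01 + P01) ≤ Z10 + (U01 + P01) + 3 * (U11 + P11) := by
    linarith only [r1, hU11]
  have hrP : r * P11 ≤ m / 12 := by
    have hr0 : 0 ≤ r := hr'.trans hrr
    have h1 : 0 ≤ r * U11 := mul_nonneg hr0 hU11
    have h2 : 0 ≤ (U11 + P11) * W10 := by positivity
    linarith only [q5, h1, h2]
  have hrP' : (1 - l * wj - (V01 + L * R01)) * P11 ≤ m / 12 :=
    (mul_le_mul_of_nonneg_right hrr hP11).trans hrP
  have hzPb : P01 + k * P11 ≤ zP := c2
  have hk0 : (0 : ℝ) < k := by linarith only [hkR]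
  interval_cases K
  · -- `K = 4`
    have hL2 : L ≤ 2 := by omega
    have hL2R : (L : ℝ) ≤ 2 := by exact_mod_cast hL2
    -- bounds
    have hbounds : bi ≤ 282 / 100 * m ∧ zP ≤ 116 / 100 * m := by
      norm_num at hai
      by_cases hL1 : L ≤ 1
      · have hL1R : (L : ℝ) ≤ 1 := by exact_mod_cast hL1
        have hLw : L * wP ≤ 1 * wP := mul_le_mul_of_nonneg_right hL1R hwP
        have hLw0 : 0 ≤ L * wP := by positivity
        have hT : 0 ≤ t + wP := by positivity
        have hσ : 0 ≤ s + zP := by positivity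
        have hbt : bi ≤ t + wP := by rw [hbi]; linarith only [hLw]
        have hbtL : bi ≤ t + wP := hbt
        have g1 : (t + wP) * (1 / 2) ≤ m := by
          refine le_trans (mul_le_mul_of_nonneg_left ?_ hT) hI2
          linarith only [hai2, hzP]
        have g2 : (s + zP) * (5 / 6) ≤ m := by
          refine le_trans (mul_le_mul_of_nonneg_left ?_ hσ) hI1
          linarith only [hbt, g1, hm2, hwP]
        have g3 : (t + wP) * (7 / 10) ≤ m := by
          refine le_trans (mul_le_mul_of_nonneg_left ?_ hT) hI2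
          linarith only [hai, g2, hm2, hs]
        have g4 : (s + zP) * (88 / 100) ≤ m := by
          refine le_trans (mul_le_mul_of_nonneg_left ?_ hσ) hI1
          linarith only [hbtL, g3, hm2, hwP]
        exact ⟨by linarith only [hbt, g3, hm], by linarith only [g4, hs, hm]⟩
      · have hL : L = 2 := by omega
        have hst : s = 0 ∧ t = 0 := by
          rcases hKL with h | h
          · omega
          · exact h.2
        obtain ⟨rfl, rfl⟩ := hst
        subst hL
        norm_num at hai hbi hI1 hI2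
        have g1 : wP * (5 / 8) ≤ m := by
          refine le_trans (mul_le_mul_of_nonneg_left ?_ hwP) hI2
          linarith only [hai, hai2, hzP]
        have g2 : zP * (13 / 15) ≤ m := by
          refine le_trans (mul_le_mul_of_nonneg_left ?_ hzP) hI1
          linarith only [hbi, g1, hm2]
        have g3 : wP * (71 / 100) ≤ m := by
          refine le_trans (mul_le_mul_of_nonneg_left ?_ hwP) hI2
          linarith only [hai, g2, hm2]
        exact ⟨by linarith only [hbi, g3, hm], by linarith only [g2, hm]⟩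
    have hg : wj + (V01 + L * R01) / 2 ≤ W10 + (V01 + R01) + 3 * (V11 + R11) := by
      have : L * R01 ≤ 2 * R01 := mul_le_mul_of_nonneg_right hL2R hR01
      linarith only [this, hw3, hV01]
    have hB := stepB hV hg hP hPp hr' hrr hHt (by positivity) hH
    have hβb : V01 + L * R01 ≤ 282 / 100 * m := hβ.trans hbounds.1
    obtain ⟨e1, e2⟩ := pos4 hm hm2 hR hβ0 hβb hzP hbounds.2
    set β := V01 + L * R01 with hβd
    clear_value β
    unfold EK at e1
    unfold ED at e2
    have hx' : 0 ≤ 5 * (1 - l * wj - β) - 6 * (wj + β / 2) := posx4 hm hm2 hR hβb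
    have hx'' := mul_nonneg hU01 hx'
    have hlp := lp hP01 hP11 hk0 hzPb
      (by have : 0 ≤ 6 * ((4 : ℝ) - 3) / k := by positivity
          exact mul_nonneg this hr') e1 e2
    have hkk : (k : ℝ) * P11 * (6 * (4 - 3) / k * (1 - l * wj - β)) =
        6 * (P11 * (1 - l * wj - β)) := by field_simp; ring
    rw [hkk] at hlp
    push_cast at hB
    linarith only [hB, hlp, hx'']
  · -- `K = 5`
    have hL1 : L ≤ 1 := by omega
    have hL1R : (L : ℝ) ≤ 1 := by exact_mod_cast hL1
    have hbounds : bi ≤ 164 / 100 * m ∧ zP ≤ 116 / 100 * m := by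
      norm_num at hai
      by_cases hL0' : L = 0
      · subst hL0'
        norm_num at hbi
        have hT : 0 ≤ t + wP := by positivity
        have hσ : 0 ≤ s + zP := by positivity
        have g1 : (t + wP) * (1 / 2) ≤ m := by
          refine le_trans (mul_le_mul_of_nonneg_left ?_ hT) hI2
          linarith only [hai2, hzP]
        have g2 : (s + zP) * (5 / 6) ≤ m := by
          refine le_trans (mul_le_mul_of_nonneg_left ?_ hσ) hI1
          linarith only [hbi, g1, hm2, hwP]
        have g3 : (t + wP) * (6 / 10) ≤ m := by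
          refine le_trans (mul_le_mul_of_nonneg_left ?_ hT) hI2
          linarith only [hai, g2, hm2, hs]
        have g4 : (s + zP) * (861 / 1000) ≤ m := by
          refine le_trans (mul_le_mul_of_nonneg_left ?_ hσ) hI1
          linarith only [hbi, g3, hm2, hwP]
        have g5 : (t + wP) * (6128 / 10000) ≤ m := by
          refine le_trans (mul_le_mul_of_nonneg_left ?_ hT) hI2
          linarith only [hai, g4, hm2, hs]
        have g6 : (s + zP) * (8635 / 10000) ≤ m := by
          refine le_trans (mul_le_mul_of_nonneg_left ?_ hσ) hI1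
          linarith only [hbi, g5, hm2, hwP]
        exact ⟨by linarith only [hbi, g5, hwP, hm], by linarith only [g6, hs, hm]⟩
      · have hL : L = 1 := by omega
        have hst : s = 0 ∧ t = 0 := by
          rcases hKL with h | h
          · omega
          · exact h.2
        obtain ⟨rfl, rfl⟩ := hst
        subst hL
        norm_num at hai hbi hI1 hI2
        have g1 : zP ≤ m := by rw [hbi] at hI1; linarith only [hI1]
        have g2 : wP * (2 / 3) ≤ m := by
          refine le_trans (mul_le_mul_of_nonneg_left ?_ hwP) hI2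
          linarith only [hai, g1, hm2]
        exact ⟨by linarith only [hbi, g2, hm], by linarith only [g1, hm]⟩
    have hg : wj + (V01 + L * R01) / 1 ≤ W10 + (V01 + R01) + 3 * (V11 + R11) := by
      have : L * R01 ≤ 1 * R01 := mul_le_mul_of_nonneg_right hL1R hR01
      linarith only [this, hw3, hV01]
    have hB := stepB hV hg hP hPp hr' hrr hHt (by positivity) hH
    have hβb : V01 + L * R01 ≤ 164 / 100 * m := hβ.trans hbounds.1
    have hP01z : P01 ≤ 116 / 100 * m := by linarith only [c2, hkP, hbounds.2]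
    have h5 := pos5 hm hm2 hR hβ0 hβb
    set β := V01 + L * R01 with hβd
    clear_value β
    have hx' : 0 ≤ 5 * (1 - l * wj - β) - 6 * (wj + β / 1) := posx5 hm hm2 hR hβb
    have hx'' := mul_nonneg hU01 hx'
    push_cast at hB
    rcases h5 with h5 | h5
    · -- by `q5`
      have e4 := h5 P01 hP01 hP01z
      unfold EK at e4
      linarith only [e4, hB, hx'', hrP']
    · obtain ⟨e1, e2⟩ := h5 zP hzP hbounds.2
      unfold EK at e1
      unfold ED at e2
      have hlp := lp hP01 hP11 hk0 hzPb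
        (by have : 0 ≤ 6 * ((5 : ℝ) - 3) / k := by positivity
            exact mul_nonneg this hr') e1 e2
      have hkk : (k : ℝ) * P11 * (6 * (5 - 3) / k * (1 - l * wj - β)) =
          12 * (P11 * (1 - l * wj - β)) := by field_simp; ring
      rw [hkk] at hlp
      linarith only [hB, hlp, hx'']

theorem swap {Q : ℕ} {m : ℝ} {k l K L : ℕ} {aj bj zj wj ai bi s zP t wP
    Z10 U01 U11 P01 P11 W10 V01 V11 R01 R11 p r : ℝ}
    (h : FinX Q m k l K L aj bj zj wj ai bi s zP t wP Z10 U01 U11 P01 P11 W10 V01 V11 R01 R11 p r) :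
    FinX Q m l k L K bj aj wj zj bi ai t wP s zP W10 V01 V11 R01 R11 Z10 U01 U11 P01 P11 r p where
  hm := h.hm
  hm0 := h.hm0
  hk := h.hl
  hl := h.hk
  hkl := by have := h.hkl; omega
  hKL := by
    rcases h.hKL with h' | h'
    · left; omega
    · right; exact ⟨by omega, h'.2.2, h'.2.1⟩
  haj0 := h.hbj0
  hbj0 := h.haj0
  hai0 := h.hbi0
  hbi0 := h.hai0
  haj2 := h.hbj2
  hbj2 := h.haj2
  hai2 := h.hbi2
  hbi2 := h.hai2
  haj := h.hbj
  hbj := h.haj
  hJ1 := h.hJ2
  hJ2 := h.hJ1
  hJ3 := by have := h.hJ3; linarith only [this]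
  hs := h.ht
  hzP := h.hwP
  ht := h.hs
  hwP := h.hzP
  hai := h.hbi
  hbi := h.hai
  hI1 := h.hI2
  hI2 := h.hI1
  hZ10 := h.hW10
  hU01 := h.hV01
  hU11 := h.hV11
  hP01 := h.hR01
  hP11 := h.hR11
  hW10 := h.hZ10
  hV01 := h.hU01
  hV11 := h.hU11
  hR01 := h.hP01
  hR11 := h.hP11
  c1 := h.c3
  c2 := h.c4
  c3 := h.c1
  c4 := h.c2
  r1 := h.r2
  r2 := h.r1
  hp := h.hr
  hr := h.hp
  hp2 := h.hr2
  hr2 := h.hp2
  q1 := h.q2
  q2 := h.q1
  q3 := h.q4
  q4 := h.q3
  q5 := h.q6
  q6 := h.q5

end XF6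

theorem tX_final6 : X_final 6 := by
  intro m k l K L aj bj zj wj ai bi s zP t wP Z10 U01 U11 P01 P11 W10 V01 V11 R01 R11 p r hF hV1 hV2
  push_cast at hV1 hV2
  by_cases hL : L ≤ 3
  · exact XF6.core m k l K L aj bj zj wj ai bi s zP t wP Z10 U01 U11 P01 P11 W10 V01 V11 R01 R11 p r
      hL hF hV1 hV2
  · have hK : K ≤ 3 := by
      rcases hF.hKL with h | h <;> omega
    exact XF6.core m l k L K bj aj wj zj bi ai t wP s zP W10 V01 V11 R01 R11 Z10 U01 U11 P01 P11 r p
      hK (XF6.swap hF) hV2 hV1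

end R745CDX
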