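import Pool.Agent.R745.CDX.Defs

/-!
# Piece XF6 of project CDX: the final inequality for `Q = 6`
-/

namespace R745CDX

open Finset H825CD

namespace XF6

/-! ### Affine functions on boxes -/

theorem affp (f : ℝ → ℝ) (hf : ∀ t, f t = f 0 + (f 1 - f 0) * t) {lo hi t : ℝ} (h1 : lo ≤ t)
    (h2 : t ≤ hi) (p1 : 0 < f lo) (p2 : 0 < f hi) : 0 < f t := by
  rw [hf] at p1 p2 ⊢
  rcases le_total 0 (f 1 - f 0) with h | h
  · nlinarith
  · nlinarith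

theorem box (E : ℝ → ℝ → ℝ → ℝ → ℝ)
    (a1 : ∀ z w b q, E z w b q = E 0 w b q + (E 1 w b q - E 0 w b q) * z)
    (a2 : ∀ z w b q, E z w b q = E z 0 b q + (E z 1 b q - E z 0 b q) * w)
    (a3 : ∀ z w b q, E z w b q = E z w 0 q + (E z w 1 q - E z w 0 q) * b)
    (a4 : ∀ z w b q, E z w b q = E z w b 0 + (E z w b 1 - E z w b 0) * q)
    {z w b q z1 z2 w1 w2 b1 b2 q1 q2 : ℝ}
    (hz1 : z1 ≤ z) (hz2 : z ≤ z2) (hw1 : w1 ≤ w) (hw2 : w ≤ w2) (hb1 : b1 ≤ b) (hb2 : b ≤ b2)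
    (hq1 : q1 ≤ q) (hq2 : q ≤ q2)
    (v : ∀ z' w' b' q', (z' = z1 ∨ z' = z2) → (w' = w1 ∨ w' = w2) → (b' = b1 ∨ b' = b2) →
      (q' = q1 ∨ q' = q2) → 0 < E z' w' b' q') : 0 < E z w b q := by
  have s1 : ∀ z' w' b', (z' = z1 ∨ z' = z2) → (w' = w1 ∨ w' = w2) → (b' = b1 ∨ b' = b2) →
      0 < E z' w' b' q := fun z' w' b' h1 h2 h3 =>
    affp (fun q => E z' w' b' q) (fun t => a4 z' w' b' t) hq1 hq2
      (v z' w' b' q1 h1 h2 h3 (Or.inl rfl)) (v z' w' b' q2 h1 h2 h3 (Or.inr rfl))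
  have s2 : ∀ z' w', (z' = z1 ∨ z' = z2) → (w' = w1 ∨ w' = w2) → 0 < E z' w' b q :=
    fun z' w' h1 h2 => affp (fun b => E z' w' b q) (fun t => a3 z' w' t q) hb1 hb2
      (s1 z' w' b1 h1 h2 (Or.inl rfl)) (s1 z' w' b2 h1 h2 (Or.inr rfl))
  have s3 : ∀ z', (z' = z1 ∨ z' = z2) → 0 < E z' w b q :=
    fun z' h1 => affp (fun w => E z' w b q) (fun t => a2 z' t b q) hw1 hw2
      (s2 z' w1 h1 (Or.inl rfl)) (s2 z' w2 h1 (Or.inr rfl))
  exact affp (fun z => E z w b q) (fun t => a1 t w b q) hz1 hz2 (s3 z1 (Or.inl rfl))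
    (s3 z2 (Or.inr rfl))

/-- The range of the variables at the critical coordinate. -/
inductive Rg (m z w : ℝ) : ℝ → ℝ → Prop
  | a : m ≤ z → z ≤ 7 / 5 * m → m ≤ w → w ≤ 17 / 15 * m → Rg m z w 2 4
  | b : m ≤ z → z ≤ 127 / 100 * m → m ≤ w → w ≤ 127 / 100 * m → Rg m z w 3 3
  | c : m ≤ z → z ≤ 17 / 15 * m → m ≤ w → w ≤ 7 / 5 * m → Rg m z w 4 2

/-! ### The inequalities on boxes -/

/-- `F0 + α A + β B - 3 α β`. -/
noncomputable def EA (k l z w a b : ℝ) : ℝ :=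
  (1 - k * z - a) * (1 - l * w - b + 6 * (w + b / 3)) + 6 * (1 - l * w - b) * (z + a / 3) - 1

noncomputable def E0 (k l m z w : ℝ) : ℝ :=
  (1 - k * z) * (1 - l * w + 6 * w) + 6 * (1 - l * w) * z - 1 - 33 / 10 * m

noncomputable def EK (k l K lam z w b q : ℝ) : ℝ :=
  (1 - k * z) * (1 - l * w - b + 6 * (w + b / lam)) + 6 * (1 - l * w - b) * z - 1 -
    q * (K * (1 - l * w - b + 6 * (w + b / lam)) - 6 * (1 - l * w - b))

noncomputable def ED (k l K lam z w b q : ℝ) : ℝ :=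
  (1 - k * z) * (1 - l * w - b + 6 * (w + b / lam)) + 6 * (1 - l * w - b) * z - 1 -
    q * (6 * (K - 3) / k * (1 - l * w - b))

section

variable {m z w k l : ℝ}

theorem posA (hm : 0 < m) (hm2 : m ≤ 1 / 12) (h : Rg m z w k l) {a b : ℝ} (ha : 0 ≤ a)
    (ha2 : a ≤ 381 / 100 * m) (hb : 0 ≤ b) (hb2 : b ≤ 381 / 100 * m) : 0 < EA k l z w a b := by
  have hmm : 0 ≤ m * (1 / 12 - m) := mul_nonneg hm.le (by linarith)
  cases h with
  | a h1 h2 h3 h4 =>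
    refine box (EA 2 4) ?_ ?_ ?_ ?_ h1 h2 h3 h4 ha ha2 hb hb2 ?_
    iterate 4 (intro z w b q; unfold EA; ring)
    rintro _ _ _ _ (rfl | rfl) (rfl | rfl) (rfl | rfl) (rfl | rfl) <;> unfold EA <;>
      linarith only [hmm, hm]
  | b h1 h2 h3 h4 =>
    refine box (EA 3 3) ?_ ?_ ?_ ?_ h1 h2 h3 h4 ha ha2 hb hb2 ?_
    iterate 4 (intro z w b q; unfold EA; ring)
    rintro _ _ _ _ (rfl | rfl) (rfl | rfl) (rfl | rfl) (rfl | rfl) <;> unfold EA <;>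
      linarith only [hmm, hm]
  | c h1 h2 h3 h4 =>
    refine box (EA 4 2) ?_ ?_ ?_ ?_ h1 h2 h3 h4 ha ha2 hb hb2 ?_
    iterate 4 (intro z w b q; unfold EA; ring)
    rintro _ _ _ _ (rfl | rfl) (rfl | rfl) (rfl | rfl) (rfl | rfl) <;> unfold EA <;>
      linarith only [hmm, hm]

theorem pos0 (hm : 0 < m) (hm2 : m ≤ 1 / 12) (h : Rg m z w k l) : 0 < E0 k l m z w := by
  have hmm : 0 ≤ m * (1 / 12 - m) := mul_nonneg hm.le (by linarith)
  cases h with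
  | a h1 h2 h3 h4 =>
    refine box (fun z w _ _ => E0 2 4 m z w) ?_ ?_ ?_ ?_ h1 h2 h3 h4 (le_refl (0 : ℝ))
      (le_refl (0 : ℝ)) (le_refl (0 : ℝ)) (le_refl (0 : ℝ)) ?_
    iterate 4 (intro z w b q; unfold E0; ring)
    rintro _ _ _ _ (rfl | rfl) (rfl | rfl) _ _ <;> unfold E0 <;> linarith only [hmm, hm]
  | b h1 h2 h3 h4 =>
    refine box (fun z w _ _ => E0 3 3 m z w) ?_ ?_ ?_ ?_ h1 h2 h3 h4 (le_refl (0 : ℝ))
      (le_refl (0 : ℝ)) (le_refl (0 : ℝ)) (le_refl (0 : ℝ)) ?_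
    iterate 4 (intro z w b q; unfold E0; ring)
    rintro _ _ _ _ (rfl | rfl) (rfl | rfl) _ _ <;> unfold E0 <;> linarith only [hmm, hm]
  | c h1 h2 h3 h4 =>
    refine box (fun z w _ _ => E0 4 2 m z w) ?_ ?_ ?_ ?_ h1 h2 h3 h4 (le_refl (0 : ℝ))
      (le_refl (0 : ℝ)) (le_refl (0 : ℝ)) (le_refl (0 : ℝ)) ?_
    iterate 4 (intro z w b q; unfold E0; ring)
    rintro _ _ _ _ (rfl | rfl) (rfl | rfl) _ _ <;> unfold E0 <;> linarith only [hmm, hm]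

theorem posAB (hm : 0 < m) (hm2 : m ≤ 1 / 12) (h : Rg m z w k l) :
    0 ≤ 1 - l * w - 6 * w ∧ 0 ≤ 1 - k * z - 6 * z := by
  cases h <;> constructor <;> linarith

theorem posx4 (hm : 0 < m) (hm2 : m ≤ 1 / 12) (h : Rg m z w k l) {b : ℝ}
    (hb2 : b ≤ 282 / 100 * m) : 0 ≤ 5 * (1 - l * w - b) - 6 * (w + b / 2) := by
  cases h <;> linarith

theorem posx5 (hm : 0 < m) (hm2 : m ≤ 1 / 12) (h : Rg m z w k l) {b : ℝ}
    (hb2 : b ≤ 164 / 100 * m) : 0 ≤ 5 * (1 - l * w - b) - 6 * (w + b / 1) := by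
  cases h <;> linarith

/-- `K = 4`. -/
theorem pos4 (hm : 0 < m) (hm2 : m ≤ 1 / 12) (h : Rg m z w k l) {b q : ℝ} (hb : 0 ≤ b)
    (hb2 : b ≤ 282 / 100 * m) (hq : 0 ≤ q) (hq2 : q ≤ 116 / 100 * m) :
    0 < EK k l 4 2 z w b q ∧ 0 < ED k l 4 2 z w b q := by
  have hmm : 0 ≤ m * (1 / 12 - m) := mul_nonneg hm.le (by linarith)
  cases h with
  | a h1 h2 h3 h4 =>
    constructor
    · refine box (EK 2 4 4 2) ?_ ?_ ?_ ?_ h1 h2 h3 h4 hb hb2 hq hq2 ?_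
      iterate 4 (intro z w b q; unfold EK; ring)
      rintro _ _ _ _ (rfl | rfl) (rfl | rfl) (rfl | rfl) (rfl | rfl) <;> unfold EK <;>
        linarith only [hmm, hm]
    · refine box (ED 2 4 4 2) ?_ ?_ ?_ ?_ h1 h2 h3 h4 hb hb2 hq hq2 ?_
      iterate 4 (intro z w b q; unfold ED; ring)
      rintro _ _ _ _ (rfl | rfl) (rfl | rfl) (rfl | rfl) (rfl | rfl) <;> unfold ED <;>
        linarith only [hmm, hm]
  | b h1 h2 h3 h4 =>
    constructor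
    · refine box (EK 3 3 4 2) ?_ ?_ ?_ ?_ h1 h2 h3 h4 hb hb2 hq hq2 ?_
      iterate 4 (intro z w b q; unfold EK; ring)
      rintro _ _ _ _ (rfl | rfl) (rfl | rfl) (rfl | rfl) (rfl | rfl) <;> unfold EK <;>
        linarith only [hmm, hm]
    · refine box (ED 3 3 4 2) ?_ ?_ ?_ ?_ h1 h2 h3 h4 hb hb2 hq hq2 ?_
      iterate 4 (intro z w b q; unfold ED; ring)
      rintro _ _ _ _ (rfl | rfl) (rfl | rfl) (rfl | rfl) (rfl | rfl) <;> unfold ED <;>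
        linarith only [hmm, hm]
  | c h1 h2 h3 h4 =>
    constructor
    · refine box (EK 4 2 4 2) ?_ ?_ ?_ ?_ h1 h2 h3 h4 hb hb2 hq hq2 ?_
      iterate 4 (intro z w b q; unfold EK; ring)
      rintro _ _ _ _ (rfl | rfl) (rfl | rfl) (rfl | rfl) (rfl | rfl) <;> unfold EK <;>
        linarith only [hmm, hm]
    · refine box (ED 4 2 4 2) ?_ ?_ ?_ ?_ h1 h2 h3 h4 hb hb2 hq hq2 ?_
      iterate 4 (intro z w b q; unfold ED; ring)
      rintro _ _ _ _ (rfl | rfl) (rfl | rfl) (rfl | rfl) (rfl | rfl) <;> unfold ED <;>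
        linarith only [hmm, hm]

/-- `K = 5`. -/
theorem pos5 (hm : 0 < m) (hm2 : m ≤ 1 / 12) (h : Rg m z w k l) {b : ℝ} (hb : 0 ≤ b)
    (hb2 : b ≤ 164 / 100 * m) :
    (∀ q : ℝ, 0 ≤ q → q ≤ 116 / 100 * m → m < EK k l 5 1 z w b q) ∨
    (∀ q : ℝ, 0 ≤ q → q ≤ 116 / 100 * m → 0 < EK k l 5 1 z w b q ∧ 0 < ED k l 5 1 z w b q) := by
  have hmm : 0 ≤ m * (1 / 12 - m) := mul_nonneg hm.le (by linarith)
  cases h with
  | a h1 h2 h3 h4 =>
    left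
    intro q hq hq2
    have : 0 < EK 2 4 5 1 z w b q - m := by
      refine box (fun z w b q => EK 2 4 5 1 z w b q - m) ?_ ?_ ?_ ?_ h1 h2 h3 h4 hb hb2 hq hq2 ?_
      iterate 4 (intro z w b q; unfold EK; ring)
      rintro _ _ _ _ (rfl | rfl) (rfl | rfl) (rfl | rfl) (rfl | rfl) <;> unfold EK <;>
        linarith only [hmm, hm]
    linarith
  | b h1 h2 h3 h4 =>
    right
    intro q hq hq2
    constructor
    · refine box (EK 3 3 5 1) ?_ ?_ ?_ ?_ h1 h2 h3 h4 hb hb2 hq hq2 ?_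
      iterate 4 (intro z w b q; unfold EK; ring)
      rintro _ _ _ _ (rfl | rfl) (rfl | rfl) (rfl | rfl) (rfl | rfl) <;> unfold EK <;>
        linarith only [hmm, hm]
    · refine box (ED 3 3 5 1) ?_ ?_ ?_ ?_ h1 h2 h3 h4 hb hb2 hq hq2 ?_
      iterate 4 (intro z w b q; unfold ED; ring)
      rintro _ _ _ _ (rfl | rfl) (rfl | rfl) (rfl | rfl) (rfl | rfl) <;> unfold ED <;>
        linarith only [hmm, hm]
  | c h1 h2 h3 h4 =>
    right
    intro q hq hq2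
    constructor
    · refine box (EK 4 2 5 1) ?_ ?_ ?_ ?_ h1 h2 h3 h4 hb hb2 hq hq2 ?_
      iterate 4 (intro z w b q; unfold EK; ring)
      rintro _ _ _ _ (rfl | rfl) (rfl | rfl) (rfl | rfl) (rfl | rfl) <;> unfold EK <;>
        linarith only [hmm, hm]
    · refine box (ED 4 2 5 1) ?_ ?_ ?_ ?_ h1 h2 h3 h4 hb hb2 hq hq2 ?_
      iterate 4 (intro z w b q; unfold ED; ring)
      rintro _ _ _ _ (rfl | rfl) (rfl | rfl) (rfl | rfl) (rfl | rfl) <;> unfold ED <;>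
        linarith only [hmm, hm]

end

/-! ### Bounds at the two coordinates -/

theorem up33 {m z w : ℝ} (hm : 0 < m) (hm2 : m ≤ 1 / 12) (hz : 0 ≤ z) (hw : 0 ≤ w)
    (hz2 : z ≤ 1 / 6) (h1 : z * (1 - 2 * w) ≤ m) (h2 : w * (1 - 2 * z) ≤ m) :
    z ≤ 127 / 100 * m := by
  have e1 : z * (1 - 2 * w) * (1 - 2 * z) ≤ m * (1 - 2 * z) :=
    mul_le_mul_of_nonneg_right h1 (by linarith)
  have e2 : z * (w * (1 - 2 * z)) ≤ z * m := mul_le_mul_of_nonneg_left h2 hz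
  have e : z * (1 - 2 * z) ≤ m := by nlinarith
  have z1 : z ≤ 1 / 8 := by nlinarith
  have z2 : z ≤ 1 / 9 := by nlinarith
  have z3 : z ≤ 10715 / 100000 := by nlinarith
  have z4 : z ≤ 10607 / 100000 := by nlinarith
  nlinarith

theorem up24 {m z w : ℝ} (hm : 0 < m) (hm2 : m ≤ 1 / 12) (hz : 0 ≤ z) (hw : 0 ≤ w)
    (hz2 : z ≤ 1 / 4) (h1 : z * (1 - 3 * w) ≤ m) (h2 : w * (1 - z) ≤ m) :
    z ≤ 7 / 5 * m ∧ w ≤ 17 / 15 * m := by
  have e1 : z * (1 - 3 * w) * (1 - z) ≤ m * (1 - z) :=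
    mul_le_mul_of_nonneg_right h1 (by linarith)
  have e2 : z * (w * (1 - z)) ≤ z * m := mul_le_mul_of_nonneg_left h2 hz
  have e0 : z * (1 - z - 2 * m) ≤ m := by nlinarith
  have e : z * (5 / 6 - z) ≤ m := by nlinarith
  have z1 : z ≤ 1 / 7 := by nlinarith
  have z2 : z ≤ 1207 / 10000 := by nlinarith
  have z3 : z ≤ 117 / 1000 := by nlinarith
  have z4 : z ≤ 7 / 5 * m := by nlinarith
  refine ⟨z4, ?_⟩
  have z5 : z ≤ 7 / 60 := by linarith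
  nlinarith

theorem rg (m z w : ℝ) (k l : ℕ) (hm : 0 < m) (hm2 : m ≤ 1 / 12) (hk : 1 ≤ k) (hl : 1 ≤ l)
    (hkl : k + l ≤ 6) (hz : 0 < z) (hw : 0 < w) (hkz : k * z ≤ 1 / 2) (hlw : l * w ≤ 1 / 2)
    (h1 : z * (1 - l * w + w) ≤ m) (h2 : w * (1 - k * z + z) ≤ m)
    (h3 : 6 * m < k * z + l * w - k * z * (l * w)) : Rg m z w k l := by
  have hz2 : z ≤ 2 * m := by nlinarith
  have hw2 : w ≤ 2 * m := by nlinarith
  have hzw0 : 0 ≤ z * w := (mul_pos hz hw).le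
  have hzw : z * w ≤ m / 3 := by nlinarith
  have hk5 : k ≤ 5 := by omega
  have hl5 : l ≤ 5 := by omega
  interval_cases k <;> interval_cases l <;> try omega
  all_goals norm_num at h1 h2 h3 hkz hlw ⊢
  all_goals try (exfalso; nlinarith)
  · -- (2, 4)
    obtain ⟨a, b⟩ := up24 hm hm2 hz.le hw.le (by linarith) (by nlinarith) (by nlinarith)
    exact Rg.a (by nlinarith) a (by nlinarith) b
  · -- (3, 3)
    have a := up33 hm hm2 hz.le hw.le (by linarith) (by nlinarith) (by nlinarith)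
    have b := up33 hm hm2 hw.le hz.le (by linarith) (by nlinarith) (by nlinarith)
    exact Rg.b (by nlinarith) a (by nlinarith) b
  · -- (4, 2)
    obtain ⟨a, b⟩ := up24 hm hm2 hw.le hz.le (by linarith) (by nlinarith) (by nlinarith)
    exact Rg.c (by nlinarith) b (by nlinarith) a

theorem prodAB {m A B : ℝ} (hm : 0 < m) (hm2 : m ≤ 1 / 12) (hA : 0 ≤ A) (hB : 0 ≤ B)
    (hA2 : A ≤ 1 / 2) (hB2 : B ≤ 1 / 2) (h1 : A * (1 - B) ≤ 3 * m) (h2 : B * (1 - A) ≤ 2 * m) :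
    A * B ≤ 11 / 10 * m := by
  have hAB : 0 ≤ A * B := mul_nonneg hA hB
  have hAB2 : A * B ≤ 1 / 4 := by nlinarith
  have e1 : A ≤ 3 * m + A * B := by nlinarith
  have e2 : B ≤ 2 * m + A * B := by nlinarith
  have e3 : A * B ≤ (3 * m + A * B) * (2 * m + A * B) := mul_le_mul e1 e2 hB (by positivity)
  set P := A * B with hP
  clear_value P
  have e4 : P * (7 / 12 - P) ≤ m / 2 := by nlinarith
  have e5 : P ≤ 1 / 8 := by nlinarith
  nlinarith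

/-- The basic inequality. -/
theorem stepB {p r P r' g Wt Ht H : ℝ} (hV : p * r + 6 * p * Wt + 6 * r * Ht ≤ 1) (h1 : g ≤ Wt)
    (h2 : 0 ≤ P) (h3 : P ≤ p) (h4 : 0 ≤ r') (h5 : r' ≤ r) (h6 : 0 ≤ Ht) (h7 : 0 ≤ g)
    (h8 : H ≤ Ht) : P * (r' + 6 * g) + 6 * r' * H ≤ 1 := by
  have hp : 0 ≤ p := h2.trans h3
  have hr : 0 ≤ r := h4.trans h5
  have e1 : p * r' ≤ p * r := mul_le_mul_of_nonneg_left h5 hp
  have e2 : p * g ≤ p * Wt := mul_le_mul_of_nonneg_left h1 hp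
  have e3 : r' * Ht ≤ r * Ht := mul_le_mul_of_nonneg_right h5 h6
  have e4 : r' * H ≤ r' * Ht := mul_le_mul_of_nonneg_left h8 h4
  have e5 : P * (r' + 6 * g) ≤ p * (r' + 6 * g) := mul_le_mul_of_nonneg_right h3 (by linarith)
  nlinarith

/-- Linear programming in the variables `x`, `u`. -/
theorem lp {V x u q k D1 D2 : ℝ} (hx : 0 ≤ x) (hu : 0 ≤ u) (hk : 0 < k) (hq : x + k * u ≤ q)
    (hD2 : 0 ≤ D2) (h1 : 0 < V - q * D1) (h2 : 0 < V - q * D2) :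
    x * D1 + k * u * D2 < V := by
  have hku : 0 ≤ k * u := mul_nonneg hk.le hu
  rcases le_total D1 D2 with h | h
  · have : x * D1 ≤ x * D2 := mul_le_mul_of_nonneg_left h hx
    have h3 : (x + k * u) * D2 ≤ q * D2 := mul_le_mul_of_nonneg_right hq hD2
    nlinarith
  · have : k * u * D2 ≤ k * u * D1 := mul_le_mul_of_nonneg_left h hku
    have h3 : (x + k * u) * D1 ≤ q * D1 := mul_le_mul_of_nonneg_right hq (hD2.trans h)
    nlinarith

end XF6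

end R745CDX
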